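import Pool.Agent.MWV.Defs

/-!
# World A, run fill with heavy ends (squad MWV): statements

GOAL: `TopStmt` (all periods): in a modular congruence `h ^ N` may be inserted between two letters `h`
over arbitrary lights and heavy letters (`Free N S k` for all `k`).
Notation of the docstrings: `u ~ v` is `S u v`; `x = 0`, `y = 3`, `X = x^N`, `Y = y^N`,
`c_j = 3 j + 3` (marker of gap `j`), `C_j = c_j^N`; heavy = `% 3 = 0`; light = `3 e + 1`; a word of
heavy letters is determined modulo `~` by its set of letters and the numbers of letters modulo `N`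
(HVY).  `W'[L]` stands for `W (PP k P) (PP k Q) L`.  Every docstring contains the proof.  All rows can
be started at once; hypotheses = the rows in the column uses, in this order.
-/

namespace Pool.Agent.MWV

open Pool.Agent.Helper14_MV Pool.Agent.Helper2_MV

/-! ## Block A: the calculus -/

/-- HVY. Words of heavy letters.
PROOF. `comm` and `pw` hold for all heavy letters (`sub` with `0 ↦ [h]`, `3 ↦ [h']`; for `h = h'`
trivial).  So `~` is invariant under permutations of words of heavy letters (`List.Perm` induction),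
and `h^(m+N) ~ h^m` for `m ≥ 1`, hence `h^m ~ h^m'` if `m, m' ≥ 1`, `m % N = m' % N`.  Induction on the
number of different letters: `u` is a permutation of `h^(count) ++ (u without h)`. -/
def HvyStmt : Prop := ∀ (N : ℕ) (S : List ℕ → List ℕ → Prop), Wo N S → ∀ u v : List ℕ,
  (∀ a ∈ u, a % 3 = 0) → (∀ a ∈ v, a % 3 = 0) → (∀ a, a ∈ u ↔ a ∈ v) →
    (∀ a, u.count a % N = v.count a % N) → S u v

/-- NIS. Deletion, content, isoterms.
PROOF. Filter: `sub` with `f a = if p a then [a] else []`.  `z t z` for other letters `z ≠ t`, not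
heavy: rename `z ↦ 1`, `t ↦ 2`, use `iso`, rename back (if `S [z,t,z] v`: delete in `v` nothing;
take `f z = [1]`, `f t = [2]`, `f a = [0]` for all other letters `a`; `iso` shows that `v` has only the
letters `z, t`; heavy letters go to `[0]`, heavy).  `[a, b]`, `a ≠ b`: append `[a]`.  `[a]`: append
`[b, a]`.  Content: if `a ∈ u`, `a ∉ v`, delete all other letters: `a^i ~ []`, `i ≥ 1`; map `a` to `[0]`
(allowed for all letters) and append `[1, 2, 1]`: `[1,2,1] ~ 0^i [1,2,1]`, contradiction to `iso`.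
Count one: filter to `{a}` and the isoterm `[a]`. -/
def NisStmt : Prop := ∀ (N : ℕ) (S : List ℕ → List ℕ → Prop), Wo N S →
  (∀ (p : ℕ → Bool) (u v : List ℕ), S u v → S (u.filter p) (v.filter p)) ∧
  (∀ a b, a % 3 ≠ 0 → b % 3 ≠ 0 → a ≠ b → ∀ v, (S [a, b, a] v → v = [a, b, a]) ∧
    (S [a, b] v → v = [a, b]) ∧ (S [a] v → v = [a])) ∧
  (∀ u v, S u v → ∀ a, a ∈ u ↔ a ∈ v) ∧
  (∀ u v a, a % 3 ≠ 0 → S u v → (u.count a = 1 ↔ v.count a = 1))

/-- PAR. Position of a double letter `a` with respect to a simple letter `s`.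
PROOF (uses NIS).  `V` filtered to `{a, t}` is `a t a` (isoterm), so `a` occurs twice in `V`; `s`
occurs once.  If `s = t` done.  Both filters to `{a, s}` are one of `a s a`, `s a a`, `a a s` and they
are `~`.  If one of them is `a s a` they are equal (isoterm).  Suppose `U` gives `s a a` and `V` gives
`a a s`.  In `U`: `s` before the first `a`, so before `t`: the filter to `{s, t}` is `s t`, also for `V`
(isoterm); in `V` both `a` are before `s`, so before `t`, but the filter to `{a, t}` is `a t a`: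
contradiction.  The case `a a s` / `s a a` is symmetric. -/
def ParStmt : Prop := ∀ (N : ℕ) (S : List ℕ → List ℕ → Prop), Wo N S →
  ∀ (U V : List ℕ) (a s t : ℕ), S U V → a % 3 ≠ 0 → s % 3 ≠ 0 → t % 3 ≠ 0 → a ≠ s → a ≠ t →
    U.count s = 1 → U.count t = 1 →
      U.filter (fun c => decide (c = a ∨ c = t)) = [a, t, a] →
        V.filter (fun c => decide (c = a ∨ c = s)) = U.filter (fun c => decide (c = a ∨ c = s))

/-- WOB. From a congruence to the calculus.
PROOF. `x^a ≈ x^b` for `a, b ≥ 2`, `a % n = b % n` (from the first hypothesis, induction).  `sub`: put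
`g a = dd n (f a)`; `RR.sub g` applied to the hypothesis gives `(dd n u).flatMap g`, which is
`dd n (u.flatMap f)` except that for a heavy letter `h` of `u` the factor is `(dd n (f h))^(n+1)`
instead of `dd n (f h)`; `f h` consists of heavy letters, so `dd n (f h)` is a product of powers
`a^(n+1)`, which commute modulo `RR β` (third hypothesis with `RR.sub`), hence
`(dd n (f h))^(n+1) ≈` the product of the `a^((n+1)(n+1)) ≈ a^(n+1)`.  `pw`:
`x^((n+1)(n+1)) ≈ x^(n+1)`.  `iso`: `dd n [1,2,1] = [1,2,1]`; `RR β [1,2,1] (dd n v)`, by `iso_aba`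
`dd n v = [1,2,1]`, so `v` has no heavy letters and `v = dd n v`.  The two further claims: `RR.sub`
with `g a = dd n [a]`; `dd n (dd n u)` has `a^((n+1)(n+1))` instead of `a^(n+1)`. -/
def WobStmt : Prop := ∀ (β : FIC) (n : ℕ), 1 ≤ n → RR β (X 2 0) (X (n + 2) 0) →
  RR β (X (n + 1) 0 ++ X (n + 1) 3) (X (n + 1) 3 ++ X (n + 1) 0) → Iso3 β →
    Wo n (SS n β) ∧ (∀ u v, RR β u v → SS n β u v) ∧ ∀ u, SS n β u (dd n u)

/-! ## Block B: words -/

/-- SBW. Substitutions `fj` act on the places.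
PROOF. `List.flatMap_append`, `List.flatMap_cons`; for `e ∈ P`: `fj jj hh (3 e + 8)` and
`fj jj hh (3 e + 1)` are `[]`, `[]` if `jj e = none` and `[3 i + 8]`, `[3 i + 1]` if `jj e = some i`;
induction on `P`, `Q`. -/
def SbwStmt : Prop := ∀ (jj : ℕ → Option ℕ) (hh : ℕ → List ℕ) (P Q L : List ℕ),
  (W P Q L).flatMap (fj jj hh) = W (P.filterMap jj) (Q.filterMap jj) (L.flatMap (fj jj hh))

/-- END. Words may be added at the ends of the main block.
PROOF. `sub` with `2 ↦ 2 :: u`, `5 ↦ v ++ [5]` and `[a]` for the other letters; `2`, `5` do not occur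
in `pl P`, `pr Q`, `L`, `L'`. -/
def EndStmt : Prop := ∀ (N : ℕ) (S : List ℕ → List ℕ → Prop), Wo N S → ∀ (P Q L L' u v : List ℕ),
  (∀ a ∈ L ++ L', a ≠ 2 ∧ a ≠ 5) → S (W P Q L) (W P Q L') →
    S (W P Q (u ++ (L ++ v))) (W P Q (u ++ (L' ++ v)))

/-- CTX. Further lights may be added (their places are those in `P`, `Q`).
PROOF. `sub`: the letters of `W (P.filter φ) (Q.filter φ) L` are: `s_e z_e` (`e` in `P`, `φ e`), `2`,
`L`, `5`, `z_e s_e` (`e` in `Q`, `φ e`).  Lights and heavy letters stay.  For `e` in `P` with `φ e`: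
`s_e ↦` the letters of `pl P` between the preceding selected light (or the beginning) and this `z_e`;
`2 ↦` the letters of `pl P` behind the last selected light, then `2 :: a`; `5 ↦ b ++ 5 ::` the letters
of `pr Q` before the first selected light; for `e` in `Q` with `φ e`: `s_e ↦` the letters of `pr Q`
between this `z_e` and the next selected light (or the end).  Formally: a function `l` by induction on
`P`: for every `P` with `Nodup` there are `t : ℕ → List ℕ` (values for `e ∈ P`) and `w` with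
`pl P = (P.filter φ).flatMap (fun e => t e ++ [3 e + 1]) ++ w`, and for `Q`:
`pr Q = w' ++ (Q.filter φ).flatMap (fun e => (3 e + 1) :: t' e)`. -/
def CtxStmt : Prop := ∀ (N : ℕ) (S : List ℕ → List ℕ → Prop), Wo N S →
  ∀ (P Q : List ℕ) (φ : ℕ → Bool) (L L' a b : List ℕ), (P ++ Q).Nodup →
    (∀ c ∈ L ++ L', c % 3 ≠ 2) → S (W (P.filter φ) (Q.filter φ) L) (W (P.filter φ) (Q.filter φ) L') →
      S (W P Q (a ++ (L ++ b))) (W P Q (a ++ (L' ++ b)))

/-- INW. Every context of a list of letters is a substitution instance (copy of MVD row INW).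
PROOF. Skeleton lemma: if `D1` is a list without repetitions of positions / letters of `p`, then
`p = P.flatMap (fun e => t e ++ [D[e]]) ++ w` for an arrangement `P` of the indices of the letters of
`D` which occur in `p` (take one occurrence of every letter); in the same way
`q = w' ++ Q.flatMap (fun e => D[e] :: t e)` for the other indices.  Separators: `3 e + 8 ↦ t e`,
`2 ↦ w`, `5 ↦ w'`. -/
def InwStmt : Prop := ∀ (p q D : List ℕ), D.Nodup → (∀ a ∈ D, a ∈ p ∨ a ∈ q) →
  ∃ (P Q : List ℕ) (t : ℕ → List ℕ), (P ++ Q).Perm (List.range D.length) ∧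
    ∀ (hh : ℕ → List ℕ) (L : List ℕ),
      (W P Q L).flatMap (fun a => if a % 3 = 0 then hh a else if a % 3 = 1 then [D.getD (a / 3) 0]
        else t a) =
      p ++ (L.flatMap (fun a => if a % 3 = 0 then hh a else if a % 3 = 1 then [D.getD (a / 3) 0]
        else t a) ++ q)

/-- DEC. Words congruent to `W P Q L`.
PROOF (uses NIS PAR).  Let `V ~ N0 := W P Q L`.  Every light `z_f`, `f ∈ P ++ Q`, occurs exactly twice
in `N0`, with the separator `t = 2` (`f ∈ P`) or `t = 5` (`f ∈ Q`) between: the filter to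
`{z_f, t}` is `z_f t z_f`.  So by PAR: for all lights `a` and all separators `s` of `N0` the filters of
`V` and `N0` to `{a, s}` agree; for two separators the filters agree (isoterm `[a, b]`).  Heavy letters
`h`: no `h` in `V` before a separator `s` of `pl P ++ [2]`: otherwise the filter to `{h, s}` gives
`s h^i ~ h^a s h^b`, `i, a ≥ 1`; map `h ↦ X`, `s ↦ 2` (HVY not needed: append): `2 X^i ~ X^a 2 X^b`;
multiply on the right by `X` and use `X X ~ X` (`pw`): `2 X ~ X 2 X`, excluded.  In the same way no `h`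
in `V` behind a separator of `5 :: pr Q`.
PEELING FROM THE LEFT: let `N0 = N1 ++ c :: N2` with `N1 ++ [c]` a prefix of `pl P ++ [2]`, and
`V = N1 ++ V'`.  Then `V'` starts with `c`.  (i) `c = s_e` or `c = 2` a separator: if `V'` starts with
`d ≠ c`: `d` heavy is excluded; otherwise the filters of `V` and `N0` to `{d, c}` agree and begin with
the filter of `N1`, then `d` in `V` and `c` in `N0`: contradiction (`V'` is not empty for the same
reason).  (ii) `c = z_e`, next separator `s'` (`N2 = s' :: …`): if `V'` starts with `d ≠ c`: `d` heavy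
is excluded; `d = s'`: the filters to `{z_e, s'}` give a contradiction as in (i); other `d`: the filters
to `{d, s'}` (in `N0` behind `N1` the letter `s'` comes before `d`).  Hence `V = pl P ++ 2 :: V'`.
Mirror image: `V = V'' ++ 5 :: pr Q`.  `5` occurs once in `V` and not in `pl P ++ [2]`, so
`V = pl P ++ 2 :: (L' ++ 5 :: pr Q)`.  `L'`: a light `z_f` occurs twice in `V`, once in `pl P` or
`pr Q`, so once in `L'`; separators occur once, so not in `L'`; content by NIS: the letters of `V` are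
those of `N0`; heavy letters are only in `L'`, `L`. -/
def DecStmt : Prop := ∀ (N : ℕ) (S : List ℕ → List ℕ → Prop), Wo N S →
  ¬ S (X N 0 ++ [2]) (X N 0 ++ 2 :: X N 0) → ¬ S (2 :: X N 0) (X N 0 ++ 2 :: X N 0) →
    ∀ P Q L V : List ℕ, (P ++ Q).Nodup → Ok P Q L → S (W P Q L) V →
      ∃ L', V = W P Q L' ∧ Ok P Q L' ∧ ∀ a, a ∈ L' ↔ a ∈ L

/-! ## Block C: insertion of `h ^ N` -/

/-- INR. One sided insertion.
PROOF (uses HVY).  First: `p ++ h :: (a ++ q) ~ p ++ h^(N+1) ++ a ++ q` (HVY), so it suffices to move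
a copy of `H = h^N` through `a` leaving a copy: `p ++ H ++ (a ++ q) ~ p ++ H ++ (a ++ (H ++ q))`,
induction on `a` for all `p`.  First letter of `a` heavy: `H b ~ H b H` (HVY), then induction with
`p ++ H ++ [b]`.  First letter a light `c` (any letter which is not heavy), `c ∈ q`, `ra`:
`q = q1 ++ c :: q2`, so `H c (a' q1) c ~ H c H (a' q1) c` by `sub` of `ra`
(`0 ↦ [h]`, `1 ↦ [c]`, `2 ↦ a' ++ q1`) and `app`; `c ∈ p`, `rb`: `p = p1 ++ c :: p2`,
`c p2 H c ~ c p2 H c H`.  Second claim: mirror image (`la`, `lb`; move a copy to the left). -/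
def InrStmt : Prop := ∀ (N : ℕ) (S : List ℕ → List ℕ → Prop), Wo N S →
  ∀ (p a q : List ℕ) (h : ℕ), h % 3 = 0 →
    (Rp N S p q a → S (p ++ h :: (a ++ q)) (p ++ h :: (a ++ (X N h ++ q)))) ∧
    (Lq N S p q a → S (p ++ (a ++ h :: q)) (p ++ (X N h ++ (a ++ h :: q))))

/-- FR1. `Free N S 1`.
PROOF (uses HVY).  Between the left `h` and the place of insertion, or between the place and the right
`h`, there are only heavy letters: there HVY gives `h :: a ~ h :: (a ++ H)` resp.
`b ++ [h] ~ H ++ b ++ [h]`. -/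
def Fr1Stmt : Prop := ∀ (N : ℕ) (S : List ℕ → List ℕ → Prop), Wo N S → Free N S 1

/-- FRS. One more light.
PROOF (uses HVY INW).  Let `D = lgt (a ++ b)`.  If `D.length ≤ k`: hypothesis.  Let
`D.length = k + 1`: `a ++ b = h_0 d_0 h_1 d_1 … d_k h_(k+1)` with words `h_j` of heavy letters.  If
the place of insertion is in `h_0` or `h_(k+1)`: HVY as in FR1.  Otherwise it is in `h_t`,
`1 ≤ t ≤ k`, `h_t = h' h''`.  INW for `p1 = p ++ h :: h_0`, `q1 = h_(k+1) ++ h :: q` and `D` gives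
`P, Q`; apply `sub` to the hypothesis `Run` with the substitution of INW, `hh 0 = [h]`,
`hh (3 j + 3) = h_j`: `p1 H d_0 h_1 d_1 … d_k H q1 ~ p1 H d_0 h_1 H d_1 … h_k H d_k H q1` (`H = h^N`);
with `hh (3 t + 3) = h' H h''` instead the left side has `h' H h''` in gap `t` and the right side is
`~` the same (HVY: `h' H h'' H ~ h' h'' H`).  `p1 H ~ p1`, `H q1 ~ q1` by HVY (`h` is in `p1`, `q1`
next to the block, only heavy letters between).  So both words are congruent. -/
def FrsStmt : Prop := ∀ (N : ℕ) (S : List ℕ → List ℕ → Prop), Wo N S → ∀ k, 1 ≤ k → Free N S k →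
  (∀ P Q : List ℕ, (P ++ Q).Perm (List.range (k + 1)) → Run N S P Q (fun _ => true) k) →
    Free N S (k + 1)

/-- GDI. Insertion under `Gd`.
PROOF (uses INR).  Case 1 of `Gd`: `Free N S k`.  Case 2: INR for `a` (left context `p`, right context
`b ++ h :: q`).  Case 3: INR, second part, for `b`.  Case 4: `a ++ b = ν1 z ρ z' ν2` and `h ∈ ρ`
(count not `0`), `ρ = ρ1 h ρ2`: if `a` is a prefix of `ν1 z ρ1`, `a ++ b1 = ν1 z ρ1`, use INR, second
part, for `b1` and this letter `h`; otherwise `a = ν1 z ρ1 h a2`, `a2` a prefix of `ρ2 z' ν2`: INR,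
first part, for `a2`.  `Rp`, `Lq` are monotone in the contexts and hold for sublists; heavy letters
make no condition. -/
def GdiStmt : Prop := ∀ (N : ℕ) (S : List ℕ → List ℕ → Prop), Wo N S → ∀ k, Free N S k →
  ∀ (p q a b : List ℕ) (h : ℕ), h % 3 = 0 → Gd N S k p q h (a ++ b) →
    S (p ++ h :: (a ++ (b ++ h :: q))) (p ++ h :: (a ++ (X N h ++ (b ++ h :: q))))

/-- GST. `Gd` does not change under insertion of words of heavy letters with all counts divisible by
`N`.
PROOF. `Ib w u v`, `w` heavy: `lgt u = lgt v`, the letters of `v` which are not heavy are those of `u`: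
cases 1, 2, 3.  Case 4: splitting: if `Ib w u v`, `v = v1 ++ z :: v2`, `z ∉ w` then
`u = u1 ++ z :: u2` with `Ib w u1 v1`, `Ib w u2 v2` (induction on `Ib`), and conversely if
`u = u1 ++ z :: u2` then `v = v1 ++ z :: v2` with the same (induction).  Apply it at `z` and `z'`
(not heavy, so not in `w`).  `ρ` and its partner consist of heavy letters at the same time and their
counts of `h` differ by a multiple of `N`. -/
def GstStmt : Prop := ∀ (N : ℕ) (S : List ℕ → List ℕ → Prop) (k : ℕ) (p q : List ℕ) (h : ℕ)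
  (w u v : List ℕ), Ib w u v → (∀ a ∈ w, a % 3 = 0) → (∀ a, w.count a % N = 0) →
    (Gd N S k p q h u ↔ Gd N S k p q h v)

/-- CLN. Insertion of copies of `w`.
PROOF (uses HVY GDI GST).  For one insertion `u = a ++ b`, `v = a ++ w ++ b`: `w ~` the product of the
`H = h^N` for the different letters `h` of `w` (HVY; counts of `w` divisible by `N`, `N ∣ N`); insert
these one after the other by GDI (`w0` contains `h` on both sides: `w0 = x1 h x2`, the part between is
`x2 ++ … ++ x1`; `Gd` for this longer word and for the words with the already inserted powers by GST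
and since heavy letters at the ends do not matter).  In general: induction on `Ib` with a generalized
left part: prove for all `u1, v1, u2, v2` with `Ib w u1 v1` already done, i.e.
`S (p ++ (w0 ++ (t ++ u) ++ w0 ++ q)) (p ++ (w0 ++ (t ++ v) ++ w0 ++ q))` whenever `Ib w u v` and `Gd`
holds for `t ++ u` (induction on `Ib w u v` for all `t`; `cons a`: `t ++ [a]`; `ins`: first insert `w`
behind `t`, then induction with `t ++ w`, GST for `Gd`). -/
def ClnStmt : Prop := ∀ (N : ℕ) (S : List ℕ → List ℕ → Prop), Wo N S → ∀ k, Free N S k →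
  ∀ (p q w0 w u v : List ℕ), (∀ a ∈ w0, a % 3 = 0) → (∀ a ∈ w, a ∈ w0) →
    (∀ a, w.count a % N = 0) → Ib w u v → (∀ h ∈ w, Gd N S k p q h u) →
      S (p ++ (w0 ++ (u ++ (w0 ++ q)))) (p ++ (w0 ++ (v ++ (w0 ++ q))))

/-- GTR. `Gd` for an inner part.
PROOF. Cases 1, 2, 3: `lgt` is the same; membership is monotone for letters which are not heavy.
Case 4: `u1 ++ ν ++ u2 = ν1 z ρ z' ν2`, `u1`, `u2` heavy, so `z` and `z'` are in `ν`:
`ν1 = u1 ++ ν1'`, `ν2 = ν2' ++ u2`. -/
def GtrStmt : Prop := ∀ (N : ℕ) (S : List ℕ → List ℕ → Prop) (k : ℕ)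
  (p q p' q' : List ℕ) (h : ℕ) (u1 ν u2 : List ℕ), (∀ a ∈ p, a % 3 ≠ 0 → a ∈ p') →
    (∀ a ∈ q, a % 3 ≠ 0 → a ∈ q') → (∀ a ∈ u1 ++ u2, a % 3 = 0) →
      Gd N S k p q h (u1 ++ (ν ++ u2)) → Gd N S k p' q' h ν

/-! ## Block D: rigidity of the run word -/

/-- RIG. A word congruent to the run word which has an `x` strictly inside gives the fill bit.
PROOF (uses HVY END).  Write `R_0 = X (cr g [] 0 k) X`, `R_1 = X (cr g X 0 k) X` for the main blocks.
(i) Apply `0 ↦ X`: the left side stays `~ W[R_0]` (HVY: `x^(N N) ~ x^N`), the right side becomes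
`W[L]`, `L = m1' X m2'` where all letters `x` come in groups `X`; `1 ∈ m1'`, `3 k + 1 ∈ m2'`.
(ii) By END (and HVY `X X ~ X`): `W[R_0] ~ W[X L X]`.
(iii) Apply `c_j ↦ c_j X` (all `j`) to `W[R_0] ~ W[L]` and then END:
`W[X (cr g [] 0 k)(c ↦ c X) X] ~ W[X L(c ↦ c X) X]`.  `L(c ↦ c X)` is `L` with further groups `X`
inserted; every insertion takes place in `m1'` (between the `X` at the left end and the inner `X`; the
lights of `m1'` are at most `k`, since `z_k` is in `m2'` and every light occurs once) or in `m2'`; so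
by `Free N S k`: `W[X L X] ~ W[X L(c ↦ c X) X]`.  (Formally: for a list `m` with at most `k`
different lights, `p ++ X ++ m ++ X ++ q ~ p ++ X ++ m(c ↦ c X) ++ X ++ q`: induction on `m` with
generalized left part, one insertion after the other.)
(iv) `W[X (cr g [] 0 k)(c ↦ c X) X] ~ W[R_1]`: if all gaps have markers these are equal up to HVY
(`c_j X` in gap `j` on both sides).  If gap `j` has no marker and `k ≥ 2`: the left word has `X` in all
gaps but gap `j`; between the `X` of gap `j - 1` (or the left end) and the `X` of gap `j + 1` (or the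
right end) there are two lights, `2 ≤ k`: `Free N S k`.
So `W[R_0] ~ W[X L X] ~ W[X L(c ↦ c X) X] ~ W[X (cr …)(c ↦ c X) X] ~ W[R_1]`.
(v) The remaining case `k = 1`, `g 1 = false`: all letters of `L` are `x`, `1`, `4`, and `1` is left of
an `x`, `4` right of it: `L = X^i 1 X^j 4 X^l`, `j ≥ 1` (groups), `X L X ~ X 1 X 4 X = R_1` by HVY.
It may help to use for `cr` the description: it is a concatenation; splitting lemma
`cr g s 0 (i + (l + 1)) = cr g s 0 i ++ mk g (i+1) ++ s ++ (rest)`. -/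
def RigStmt : Prop := ∀ (N : ℕ) (S : List ℕ → List ℕ → Prop) (P Q : List ℕ) (g : ℕ → Bool)
  (k : ℕ), Wo N S → 1 ≤ k → Free N S k → (P ++ Q).Perm (List.range (k + 1)) → Gone g k →
    ∀ m1 m2 : List ℕ, S (W P Q (X N 0 ++ (cr g [] 0 k ++ X N 0))) (W P Q (m1 ++ 0 :: m2)) →
      Ok P Q (m1 ++ 0 :: m2) → (∀ a ∈ m1 ++ m2, a ∈ X N 0 ++ cr g [] 0 k) →
        1 ∈ m1 → 3 * k + 1 ∈ m2 → Run N S P Q g k

/-- FCA. No spread over the end lights.
PROOF (uses HVY RIG).  `rr Q 0`: `W[X z_0 rest X] ~ W[X z_0 X rest X]` (use `ra` if `0 ∈ Q`, `rb` if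
`0 ∉ Q`, then `0 ∈ P`; `sub` with `1 ↦ [z_0] = [1]`, `2 ↦` the letters between), so RIG with
`m1 = X ++ [z_0] ++ x^(N-1)` and `m2 = rest ++ X` gives `Run`: contradiction.  (`cr g [] 0 k` starts
with `z_0 = 1` and ends with `z_k`.)  `ll Q k`: mirror image, `X` in front of `z_k`.  If
`X 2 ~ X 2 X`: `sub 2 ↦ [1]` and append `[2, 1]`: `ra`; `sub 2 ↦ [1]` and prepend `[1, 2]`: `rb`; so
`rr Q 0`.  If `2 X ~ X 2 X`: `la`, `lb`, so `ll Q k`. -/
def FcaStmt : Prop := ∀ (N : ℕ) (S : List ℕ → List ℕ → Prop) (P Q : List ℕ) (g : ℕ → Bool)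
  (k : ℕ), Wo N S → 1 ≤ k → Free N S k → (P ++ Q).Perm (List.range (k + 1)) → Gone g k →
    ¬ Run N S P Q g k → ¬ rr N S Q 0 ∧ ¬ ll N S Q k ∧
      ¬ S (X N 0 ++ [2]) (X N 0 ++ 2 :: X N 0) ∧ ¬ S (2 :: X N 0) (X N 0 ++ 2 :: X N 0)

/-- FCB. No exchange of lights.
PROOF (uses HVY RIG END).
`SA` (`1 4 2 1 5 4 ~ 4 1 2 1 5 4`): if `0 ∈ Q`: `1 ↦ X`, `4 ↦ [z_0]`, `2 ↦ rest`, `5 ↦` the letters
between the last `X` and the place of `z_0`: `X z_0 rest X … z_0 ~ z_0 X rest X … z_0`; multiply on the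
left by `X`: `W[X z_0 rest X] ~ W[X z_0 X rest X]`: `Run` by RIG as in FCA.  If `k ∈ Q`: `1 ↦ X`,
`4 ↦ [1]`, `2 ↦ []`, `5 ↦ [2]`: `X z X t z ~ z X X t z`, so `z X t z ~ X z X t z`: `la`, `ll Q k`.
`SB` (`1 2 4 5 1 4 ~ 1 2 4 5 4 1`): if `k ∉ Q` (`k ∈ P`): `1 ↦ [z_k]`, `4 ↦ X`, `2 ↦` the letters
between the place of `z_k` and the left end of the main block, `5 ↦ rest'` (`cr g [] 0 k = rest' z_k`):
`z_k … X rest' z_k X ~ z_k … X rest' X z_k`; by END with `X` on the right:
`W[X rest' z_k X] ~ W[X rest' X z_k X]`: `Run` by RIG.  If `0 ∉ Q`: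
`1 ↦ [1]`, `4 ↦ X`, `2 ↦ [2]`, `5 ↦ []`: `z t X z X ~ z t X X z`, so `rb`, `rr Q 0`.
`SM` (`1 2 1 4 5 4 ~ 1 2 4 1 5 4`): if `0 ∉ Q`: `1 ↦ [z_0]`, `4 ↦ X`, `2 ↦` the letters between the
place of `z_0` and the main block followed by `X`, `5 ↦ rest`: `z_0 … X z_0 X rest X ~ z_0 … X X z_0
rest X`, i.e. `W[X z_0 X rest X] ~ W[X z_0 rest X]`: `Run`.  If `0 ∈ Q`: `1 ↦ X`, `4 ↦ [1]`, `2 ↦ []`,
`5 ↦ [2]`: `X X z t z ~ X z X t z`: `ra`, `rr Q 0`. -/
def FcbStmt : Prop := ∀ (N : ℕ) (S : List ℕ → List ℕ → Prop) (P Q : List ℕ) (g : ℕ → Bool)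
  (k : ℕ), Wo N S → 1 ≤ k → Free N S k → (P ++ Q).Perm (List.range (k + 1)) → Gone g k →
    ¬ Run N S P Q g k → ¬ rr N S Q 0 → ¬ ll N S Q k →
      (0 ∈ Q ∨ k ∈ Q → ¬ SA S) ∧ ¬ SM S ∧ (0 ∉ Q ∨ k ∉ Q → ¬ SB S)

/-- UNQ. At most one full gap.
PROOF. Let `i < j`.  `Full i`: `rr` for `i` and for `k`; `Full j`: `ll` for `i` and for `0`.  `rr`, `ll`
of a light depend only on its kind (`∈ Q` or not).  If `i` has the kind of `0`: `rr 0`; if it has the
kind of `k`: `ll k`; otherwise `0` and `k` have the same kind and `rr k` gives `rr 0`. -/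
def UnqStmt : Prop := ∀ (N : ℕ) (S : List ℕ → List ℕ → Prop) (P Q : List ℕ) (k i j : ℕ),
  ¬ rr N S Q 0 → ¬ ll N S Q k → 1 ≤ i → i ≤ k → 1 ≤ j → j ≤ k → Full N S P Q k i →
    Full N S P Q k j → i = j

/-- REM. The marker of a gap which it can leave may be removed.
PROOF (uses HVY CTX END).  `c = c_j`, `z = z_(j-1)`, `z' = z_j`.  `Jp`: `z c z' ~ c^α z c^β z' c^γ` in
every context with the places of `P`, `Q` (CTX); with `c ↦ c X` (`sub`, then HVY `X^i ~ X`):
`z c X z' ~ c^α X z (c^β X) z' c^γ X` (if `β = 0` the middle is empty).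
`k = 1` (`j = 1`; `Run` for the empty marker set is `X z z' X ~ X z X z' X`, and the same with `0 ↦ [c]`
for the letter `c`, called (c); END to add letters outside): `X z c z' X ~ X c^α z c^β z' c^γ X ~`
(remove `c^β` by (c): `c^α ~ c^α C`, `C = c^N`, `c^β ~ C` if `β ≥ 1`)
`X c^α z z' c^γ X`, and `X z c X z' X ~ X c^α X z (c^β X) z' c^γ X X ~` (first remove the `X` in the
middle by `Run`, then `c^β` by (c)) `X c^α z z' c^γ X`.
`k ≥ 2`: `W[X … M_(j-1) z c z' M_(j+1) … X] ~ W[X … M_(j-1) c^α z c^β z' c^γ M_(j+1) … X] ~` (remove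
`c^β`: two lights between two `c`, `Free`, `2 ≤ k`) `W[X … M_(j-1) c^α z z' c^γ M_(j+1) … X] ~` (`Run`
without the marker `j`, with `c_(j-1) ↦ c_(j-1) c^α`, `c_(j+1) ↦ c_(j+1) c^γ`; if `j = 1` the `c^α` is
next to the left `X`: END; if `j = k` the `c^γ` is next to the right `X`) the same with `X` in all
gaps `~` (`Free`, remove the `X` of gap `j`) `W[X … X M_(j-1) c^α z z' c^γ X M_(j+1) X … X]`; and
`W[X … X z c X z' X … X] ~ W[X … X c^α X z (c^β X) z' c^γ X … X] ~` (remove `X` and then `c^β` in the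
middle by `Free`) the same word.  (In gap `j - 1` the word is `M_(j-1) c^α X`, in gap `j + 1` it is
`c^γ M_(j+1) X` up to HVY.) -/
def RemStmt : Prop := ∀ (N : ℕ) (S : List ℕ → List ℕ → Prop), Wo N S → ∀ (P Q : List ℕ)
  (k j : ℕ), 1 ≤ k → Free N S k → (P ++ Q).Perm (List.range (k + 1)) → 1 ≤ j → j ≤ k →
    Jp N S P Q j → Run N S P Q (fun i => decide (i ≠ j)) k → Run N S P Q (fun _ => true) k

/-! ## Block E: words congruent to the large words -/

/-- PPM. The places of the large words.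
PROOF. `e ≤ k` for `e ∈ P`, `e ∈ Q`.  `tw k e` contains `e + 1`, for `e = 0` also `0` and for `e = k`
also `k + 2`.  Perm: `(range (k+1)).flatMap (tw k)` is a permutation of `range (k+3)` (both without
repetitions, same elements). -/
def PpmStmt : Prop := ∀ (k : ℕ) (P Q : List ℕ), 1 ≤ k → (P ++ Q).Perm (List.range (k + 1)) →
  (PP k P ++ PP k Q).Perm (List.range (k + 3)) ∧
  (∀ i ≤ k, (i + 1 ∈ PP k Q ↔ i ∈ Q) ∧ (i + 1 ∈ PP k P ↔ i ∈ P)) ∧
  (0 ∈ PP k Q ↔ 0 ∈ Q) ∧ (k + 2 ∈ PP k Q ↔ k ∈ Q)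

/-- PJM. Deletion of two lights in the places of the large words.
PROOF. `(P.flatMap (tw k)).filterMap jj = P.flatMap (fun e => (tw k e).filterMap jj)` and for `e ≤ k`
`(tw k e).filterMap jj = [e]` in the three cases; in the last case it is `[j - 1]` for `e = j - 1`,
`[j]` for `e = j` and `[]` otherwise. -/
def PjmStmt : Prop := ∀ (k : ℕ) (P : List ℕ), 1 ≤ k → (∀ e ∈ P, e ≤ k) →
  (PP k P).filterMap (j1 k) = P ∧ (PP k P).filterMap (j2 k) = P ∧ (PP k P).filterMap (j3 k) = P ∧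
  ∀ j, 1 ≤ j → j ≤ k → (PP k P).filterMap
    (fun i => if i = j then some (j - 1) else if i = j + 1 then some j else none) =
      P.filter (fun e => decide (e + 1 = j ∨ e = j))

/-- LBF. The main blocks of the large words after deletion of two lights.
PROOF. Explicitly `Lb N g k 0 = X N 0 ++ 1 :: (cr g [] 1 k ++ (X N 0 ++ [3 (k+2) + 1]))` and
`Lb N g k 1 = 1 :: (X N 3 ++ (cr g [] 1 k ++ (3 (k+2) + 1) :: X N 3))` (the markers are `≥ 6`).
`(cr g [] 1 k).flatMap (fj (j1 k) (hd d v)) = cr g [] 0 k` (induction, more generally for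
`cr g [] 1 k'`, `k' ≤ k`), for `j2` it is `(cr g [] 0 k).tail` (`a_1` deleted, it becomes `z_0` from
`a_0`), for `j3` it is `cr g [] 0 k` without its last letter `z_k`, which comes from `a_(k+2)`. -/
def LbfStmt : Prop := ∀ (N : ℕ) (g : ℕ → Bool) (k : ℕ) (v : List ℕ), 1 ≤ k →
  (Lb N g k 0).flatMap (fj (j1 k) (hd 0 v)) =
    (List.replicate N v).flatten ++ (cr g [] 0 k ++ (List.replicate N v).flatten) ∧
  (Lb N g k 0).flatMap (fj (j2 k) (hd 0 v)) =
    (List.replicate N v).flatten ++ (cr g [] 0 k ++ (List.replicate N v).flatten) ∧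
  (Lb N g k 1).flatMap (fj (j1 k) (hd 1 v)) =
    (List.replicate N v).flatten ++ (cr g [] 0 k ++ (List.replicate N v).flatten) ∧
  (Lb N g k 1).flatMap (fj (j3 k) (hd 1 v)) =
    (List.replicate N v).flatten ++ (cr g [] 0 k ++ (List.replicate N v).flatten) ∧
  (Lb N g k 1).flatMap (fj (j2 k) (hd 1 v)) =
    1 :: ((List.replicate N v).flatten ++ ((cr g [] 0 k).tail ++ (List.replicate N v).flatten)) ∧
  cr g [] 0 k = 1 :: (cr g [] 0 k).tail

/-- LBK. Content and order in the main blocks of the large words.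
PROOF. From the explicit forms (see LBF); induction on `k` for `cr g [] 1 k`. -/
def LbkStmt : Prop := ∀ (N : ℕ) (g : ℕ → Bool) (k d : ℕ) (P Q : List ℕ), 1 ≤ N → 1 ≤ k → d ≤ 1 →
  (P ++ Q).Perm (List.range (k + 1)) →
  Ok (PP k P) (PP k Q) (Lb N g k d) ∧
  (∀ a, a % 3 = 0 → (a ∈ Lb N g k d ↔ a = 3 * d ∨ ∃ j, 1 ≤ j ∧ j ≤ k ∧ g j = true ∧
    a = 3 * j + 3)) ∧
  (∀ i j, i < j → j ≤ k + 2 → (Lb N g k d).filter
    (fun c => decide (c = 3 * i + 1 ∨ c = 3 * j + 1)) = [3 * i + 1, 3 * j + 1]) ∧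
  (∀ i j, i ≤ k + 2 → 1 ≤ j → j ≤ k → g j = true → (Lb N g k d).filter
    (fun c => decide (c = 3 * i + 1 ∨ c = 3 * j + 3)) =
      if i ≤ j then [3 * i + 1, 3 * j + 3] else [3 * j + 3, 3 * i + 1]) ∧
  (∀ j, 1 ≤ j → j ≤ k → g j = true → (Lb N g k d).filter
    (fun c => decide (c = 3 * j + 1 ∨ c = 3 * j + 3 ∨ c = 3 * (j + 1) + 1)) =
      [3 * j + 1, 3 * j + 3, 3 * (j + 1) + 1])

/-- DCB. Words congruent to the large words.
PROOF (uses DEC PPM LBK).  DEC with `Fct.sr`, `Fct.sl`. -/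
def DcbStmt : Prop := ∀ (N : ℕ) (S : List ℕ → List ℕ → Prop) (P Q : List ℕ) (g : ℕ → Bool)
  (k d : ℕ) (V : List ℕ), Hyp N S P Q g k → d ≤ 1 → S (Wb N P Q g k d) V →
    ∃ L1, V = W (PP k P) (PP k Q) L1 ∧ Ok (PP k P) (PP k Q) L1 ∧ ∀ a, a ∈ L1 ↔ a ∈ Lb N g k d

/-- NOB. The watched letter `b = 3 d` is never between `a_d` and `a_(k+1+d)`.
PROOF (uses SBW PPM PJM LBF DCB RIG).  Suppose it is.  `Ok` and the content of `m1 ++ b :: m2` by DCB
(`W` is injective in the main block: `List.append_cancel`).  Case 1: `a_1 ∈ m1` and `a_(k+1) ∈ m2`: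
apply `fj (j1 k) (hd d [0])` (heavy letters go to heavy letters): the left side is
`W P Q (X (cr g [] 0 k) X)` (SBW, PJM, LBF), the right side is `W P Q (m1' ++ 0 :: m2')` with
`z_0 ∈ m1'`, `z_k ∈ m2'`; RIG gives `Run`, contradiction.  Case 2: `a_1 ∉ m1`: then `a_1 ∈ m2` and
`d = 0`, `a_0 ∈ m1`, `a_(k+1) ∈ m2`: `j2 k`.  Case 3: `a_1 ∈ m1`, `a_(k+1) ∉ m2`: then
`a_(k+1) ∈ m1` and `d = 1` (for `d = 0` the hypothesis says `a_(k+1) ∈ m2`), `a_(k+2) ∈ m2`: `j3 k`,
`z_0` comes from `a_1`, `z_k` from `a_(k+2)`.  (Every light occurs exactly once in `m1 ++ b :: m2`.) -/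
def NobStmt : Prop := ∀ (N : ℕ) (S : List ℕ → List ℕ → Prop) (P Q : List ℕ) (g : ℕ → Bool)
  (k d : ℕ) (m1 m2 : List ℕ), Hyp N S P Q g k → d ≤ 1 →
    S (Wb N P Q g k d) (W (PP k P) (PP k Q) (m1 ++ (3 * d) :: m2)) →
      3 * d + 1 ∈ m1 → 3 * (k + 1 + d) + 1 ∈ m2 → False

/-- ORD. Order of two lights `i < j` unless both have the same kind, different from the kinds of both
ends.
PROOF (uses SBW PPM LBK DCB).  Suppose `a_i` is not in `m1`; by DCB (`Ok`) it is in `m2`.  Apply
`fj jj (fun _ => [])` with `jj i = some 0`, `jj j = some 1`, `none` otherwise (SBW): the main blocks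
become `[1, 4]` (LBK) and `[4, 1]`; the places: both in `PP k Q`: `P` part empty, `Q` part `[0, 1]` or
`[1, 0]`: deleting the superfluous separators (`2`, and the last one) and renaming gives
`1 4 5 1 8 4 ~ 4 1 5 1 8 4` or `1 4 5 4 11 1 ~ 4 1 5 4 11 1`, in both cases `SA` (in the second case
exchange the names `1`, `4`); then `i ∈ PP k Q` and the kind of `i` is that of an end, so `0 ∈ Q` or
`k ∈ Q` (PPM): `Fct.na`.  Both not in `PP k Q` (so in `PP k P`): `SB`, `Fct.nb`.  Different kinds: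
`z_0 2 (14) 5 z_1` or with `0`, `1` exchanged: `SM`, `Fct.nm`. -/
def OrdStmt : Prop := ∀ (N : ℕ) (S : List ℕ → List ℕ → Prop) (P Q : List ℕ) (g : ℕ → Bool)
  (k d i j : ℕ) (m1 m2 : List ℕ), Hyp N S P Q g k → d ≤ 1 → i < j → j ≤ k + 2 →
    ((i ∈ PP k Q ↔ j ∈ PP k Q) → ((i ∈ PP k Q ↔ 0 ∈ PP k Q) ∨ (i ∈ PP k Q ↔ k + 2 ∈ PP k Q))) →
      S (Wb N P Q g k d) (W (PP k P) (PP k Q) (m1 ++ (3 * j + 1) :: m2)) → 3 * i + 1 ∈ m1

/-- MKP. A marker on the wrong side of a light gives a spread.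
PROOF (uses HVY SBW PPM LBK).  `i ≤ j`, `c = c_j ∈ m1`: apply `fj jj hh`, `jj i = some 0`, `none`
otherwise, `hh c = [0]`, `hh a = []` for the other heavy letters: main blocks `[1, 0]` (LBK) and
`0^α 1 0^γ`, `α ≥ 1`.  Then `0 ↦ X`: `z X` and `X^α z X^γ`.  If `i ∈ PP k Q`: the words are
`2 z X 5 z s ~ 2 X^α z X^γ 5 z s`; delete `2`, `s`; substitute `5 ↦ X 5` and use HVY:
`z X 5 z ~ X z X 5 z`: `la`.  If `i ∉ PP k Q`, i.e. `i ∈ PP k P`: `z 2 z X ~ z 2 X^α z X^γ`, multiply on
the right by `X`: `lb`.  The case `j < i`, `c ∈ m2` is the mirror image (`X z ~ X^α z X^γ`, `γ ≥ 1`;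
substitute `2 ↦ 2 X` resp. multiply on the left by `X`): `ra`, `rb`. -/
def MkpStmt : Prop := ∀ (N : ℕ) (S : List ℕ → List ℕ → Prop) (P Q : List ℕ) (g : ℕ → Bool)
  (k d i j : ℕ) (m1 m2 : List ℕ), Hyp N S P Q g k → d ≤ 1 → i ≤ k + 2 → 1 ≤ j → j ≤ k →
    g j = true → S (Wb N P Q g k d) (W (PP k P) (PP k Q) (m1 ++ (3 * i + 1) :: m2)) →
      (i ≤ j → 3 * j + 3 ∈ m1 → ll N S (PP k Q) i) ∧ (j < i → 3 * j + 3 ∈ m2 → rr N S (PP k Q) i)

/-- MRK. Between two occurrences of a marker `c = c_j` further ones may be inserted.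
PROOF (uses SBW PPM PJM LBK DCB ORD MKP).  `Ok`, content by DCB.  By MKP: every light `a_i ∈ m2` with
`i ≤ j` has `ll`, with `i > j` has `rr`.  If all lights of `m2` have `i > j`: case 2 of `Gd` (`a_i` with
`i ∈ PP k Q` is in `pr (PP k Q)`, with `i ∈ PP k P` in `pl (PP k P)`); if all have `i ≤ j`: case 3.
Otherwise there are `i ≤ j < i'` with both lights in `m2`.  By `Fct.nl` a light with `ll` does not have
the kind of `k + 2` (= kind of `k + 1`), by `Fct.nr` a light with `rr` does not have the kind of `0`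
(= kind of `1`).  If `0` and `k + 2` have the same kind, then `m2` contains none of the four lights
`0, 1, k + 1, k + 2` (different since `k ≥ 1`), so at most `k - 1` lights: case 1.  Otherwise all
pairs of lights are ordered (ORD: condition true because one of the two ends has the kind of `i`).  The
lights of `m2` with index `≤ j` have the kind of `0`, and `ll`; those with index `> j` have the kind of
`k + 2` and `rr`.  If `m2` has at most `k` lights: case 1.  So at least `k + 1` of the `k + 3` lights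
are in `m2`, and these are consecutive `lo, …, hi` (order), `lo ≤ 2`, `hi ≥ k`, `lo ≤ j < hi`.  Hence
`a_1, …, a_j` have the kind of `0` (`a_1` always, the others are in `m2`) and `ll`, `a_(j+1), …,
a_(k+1)` the kind of `k + 2` and `rr`: in run indices (PPM) the first two parts of `Full N S P Q k j`.
By `hg` and `g j = true`: `¬ Jp N S P Q j`.  Write `m2 = ν1 a_j ρ a_(j+1) ν2`, `ρ` without lights
(order).  If `ρ.count c % N = 0`, apply `fj` of PJM (last part) with `hh c = [c]`, `[]` for other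
heavy letters: left main block `[z_(j-1), c, z_j]` (LBK), right one
`c^α z_(j-1) c^β z_j c^γ`, `α ≥ 1` and `γ ≥ 1` because `c` is in front of and behind `m2`: `Jp`,
contradiction.  So case 4 with `z = a_j`, `z' = a_(j+1)`: lights of `ν1 a_j` have index `≤ j`, those of
`a_(j+1) ν2` index `> j`. -/
def MrkStmt : Prop := ∀ (N : ℕ) (S : List ℕ → List ℕ → Prop) (P Q : List ℕ) (g : ℕ → Bool)
  (k d j : ℕ) (m1 m2 m3 : List ℕ), Hyp N S P Q g k → d ≤ 1 → 1 ≤ j → j ≤ k → g j = true →
    S (Wb N P Q g k d) (W (PP k P) (PP k Q)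
      (m1 ++ (3 * j + 3) :: (m2 ++ (3 * j + 3) :: m3))) →
      Gd N S k (pl (PP k P) ++ 2 :: m1) (m3 ++ 5 :: pr (PP k Q)) (3 * j + 3) m2

/-- YIN. In words congruent to the large word with `L_y` there is a `y` between `a_0` and `a_1`.
PROOF (uses HVY END SBW PPM PJM LBF DCB NOB ORD RIG).  Suppose not.  Then every `y` of `L1` is left of
all lights or right of all lights: take an occurrence of `y`.  If `a_0` is right of it: by ORD
(`a_0` before all others; `0` has the kind of an end) all lights are right of it.  If `a_0` is left of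
it, then `a_1` is left of it (assumption), by NOB (`d = 1`) `a_(k+2)` is not right of it, so left,
and by ORD all lights are left of it.  Apply `fj (j2 k) (hd 1 X)` (`y ↦ X`) to
`Wb … 1 ~ W'[L1]`: left main block `z_0 X' t X'` where `t` is the tail of `cr g [] 0 k` and
`X' = x^(N N) ~ X` (SBW, PJM, LBF), right main block `U`, in which all letters `x` come in groups `X`
and are left of all lights or right of all lights.  So `X U X ~ X U0 X`, `U0` = `U` without `x` (HVY on
the heavy letters in front of the first light and behind the last light; write `U = ν0 ν1 ν2`, `ν0`,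
`ν2` heavy, `ν1` without `x`).  Deleting `0`: `W P Q (z_0 t) ~ W P Q U0`, `z_0 t = cr g [] 0 k`.  With
END: `W[X (cr g [] 0 k) X] ~ W[X U0 X] ~ W[X U X] ~ W[X z_0 X' t X' X] ~ W[X z_0 X t X]`, and RIG gives
`Run`: contradiction. -/
def YinStmt : Prop := ∀ (N : ℕ) (S : List ℕ → List ℕ → Prop) (P Q : List ℕ) (g : ℕ → Bool)
  (k : ℕ) (L1 : List ℕ), Hyp N S P Q g k →
    S (Wb N P Q g k 1) (W (PP k P) (PP k Q) L1) →
      ∃ m1 m2, L1 = m1 ++ 3 :: m2 ∧ 1 ∈ m1 ∧ 4 ∈ m2

/-- COV. Two occurrences of the watched letter `b = 3 d` with more than `k` lights between them have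
all lights `a_d, …, a_(k+1+d)` between them.
PROOF (uses PPM DCB NOB ORD).  ORD gives: `a_d` is before `a_j` for `j > d` and `a_j` is before
`a_(k+1+d)` for `j < k + 1 + d` (`a_d` has the kind of `0`, `a_(k+1+d)` the kind of `k + 2`, by PPM).
(A) `a_d ∈ m1`: NOB for the first `b`: `a_(k+1+d)` is not right of it, so in `m1`; all `a_j`,
`j < k + 1 + d`, are in `m1`; so `m2` has at most one light (`a_(k+2)`, if `d = 0`), but
`k + 1 ≥ 2`: contradiction.  (B) `a_d ∈ m3`: all `a_j`, `j > d`, in `m3`: at most one light in `m2`.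
(C) `a_d ∈ m2`: NOB for the second `b`: `a_(k+1+d) ∉ m3`, it is behind `a_d`, so in `m2`; the others are
between these two. -/
def CovStmt : Prop := ∀ (N : ℕ) (S : List ℕ → List ℕ → Prop) (P Q : List ℕ) (g : ℕ → Bool)
  (k d : ℕ) (m1 m2 m3 : List ℕ), Hyp N S P Q g k → d ≤ 1 →
    S (Wb N P Q g k d) (W (PP k P) (PP k Q) (m1 ++ (3 * d) :: (m2 ++ (3 * d) :: m3))) →
      k + 1 ≤ (lgt m2).length → ∀ i, d ≤ i → i ≤ k + 1 + d → 3 * i + 1 ∈ m2

/-! ## Block F: the steps -/

/-- FRM. Position of the end groups of the moved letter.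
PROOF. `w0 = im N f (X N m)` is `(f m)^(N (N+1))`, at least two copies, and it occurs twice, so every
letter of `f m` occurs at least four times in the word; the letters of `W P' Q' L1` which are not heavy
occur at most twice (`Ok`, `Nodup`).  So `f m` is heavy and `w0` is not empty.  With
`A' = p ++ im(pl P') ++ f 2 ++ im α`, `B' = im γ ++ f 5 ++ im(pr Q') ++ q` the word is
`A' w0 (im μ) w0 B' = (pl P' ++ [2]) L1 ([5] ++ pr Q')`.  The letters of `pl P' ++ [2]` are not heavy and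
the first letter of `w0` is heavy, so `pl P' ++ [2]` is a prefix of `A'`
(`List.append_eq_append_iff`); in the same way `[5] ++ pr Q'` is a suffix of `B'`.  `lp`, `rp`: the
letter `3 i + 1` occurs in `pl P'` resp. `pr Q'`, so `f (3 i + 1)` is a factor of `A'` resp. `B'`.
Heavy letters of `im α` are in `A' = pl P' ++ 2 :: α1`, so in `α1`. -/
def FrmStmt : Prop := ∀ (N : ℕ) (f : ℕ → List ℕ) (P' Q' : List ℕ) (m : ℕ)
  (μ α γ p q L1 : List ℕ), 1 ≤ N → (P' ++ Q').Nodup → m % 3 = 0 → f m ≠ [] → Ok P' Q' L1 →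
    p ++ (im N f (W P' Q' (α ++ (X N m ++ (μ ++ (X N m ++ γ))))) ++ q) = W P' Q' L1 →
      ∃ α1 γ1, Fr N f P' Q' m μ α1 γ1 ∧
        L1 = α1 ++ (im N f (X N m) ++ (im N f μ ++ (im N f (X N m) ++ γ1))) ∧
        (∀ a ∈ im N f α, a % 3 = 0 → a ∈ α1) ∧ (∀ a ∈ im N f γ, a % 3 = 0 → a ∈ γ1) ∧
        p ++ (im N f (pl P') ++ (f 2 ++ im N f α)) = pl P' ++ 2 :: α1 ∧
        im N f γ ++ (f 5 ++ (im N f (pr Q') ++ q)) = γ1 ++ 5 :: pr Q'

/-- PCS. Images of the letters.
PROOF. `h ∈ μ` heavy: `(f h)^(N+1)` is a factor of the main block, `N + 1 ≥ 2`; a light in `f h`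
would occur twice in the main block, separators do not occur there (`Ok`): `f h` is heavy.  Light
`3 i + 1 ∈ μ`, `i ∈ P'` (the case `i ∈ Q'` is symmetric), `z ∈ f (3 i + 1)` not heavy: `f (3 i + 1)` is
a factor of `im μ`, which is a part of the main block, so `z = 3 w + 1`, `w ∈ P' ++ Q'`.  `Fr.lp`:
`pl P' ++ 2 :: α1 = x1 ++ f (3 i + 1) ++ x2`.  `z` occurs once in the main block, namely in `im μ`, so
not in `α1`; so this occurrence of `z` is in `pl P'`, `w ∈ P'`, and its neighbours there are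
separators (`3 w + 8` on the left, the next `3 e + 8` or `2` on the right).  If `f (3 i + 1)` had a
letter next to `z` it would contain a separator, but it is a factor of the main block.  So
`f (3 i + 1) = [z]`; `w ∉ Q'`, `i ∉ Q'` by `Nodup`. -/
def PcsStmt : Prop := ∀ (N : ℕ) (f : ℕ → List ℕ) (P' Q' : List ℕ) (m : ℕ) (μ α1 γ1 : List ℕ),
  1 ≤ N → (P' ++ Q').Nodup → Fr N f P' Q' m μ α1 γ1 →
    (∀ h ∈ μ, h % 3 = 0 → ∀ a ∈ f h, a % 3 = 0) ∧
    (∀ i ∈ P' ++ Q', 3 * i + 1 ∈ μ → ∀ z ∈ f (3 * i + 1), z % 3 ≠ 0 →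
      f (3 * i + 1) = [z] ∧ ∃ w ∈ P' ++ Q', z = 3 * w + 1 ∧ (w ∈ Q' ↔ i ∈ Q'))

/-- CV2. Exact covering.
PROOF (uses PCS).  `lgt (im N f μ)` is the concatenation of the `lgt (f a)`, `a` in `lgt μ` (the images
of heavy letters are heavy), each of length `0` or `1` (PCS); it has no repetitions (`Ok`) and contains
the `k + 2` lights `3 i + 1`, `d ≤ i ≤ k + 1 + d`; there are `k + 2` letters in `lgt μ`.  So every
`f (3 (dm + i) + 1)` is `[3 ζ_i + 1]`, and the `ζ_i` are exactly the numbers `d, …, k + 1 + d`, without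
repetitions. -/
def Cv2Stmt : Prop := ∀ (N : ℕ) (f : ℕ → List ℕ) (k : ℕ) (P' Q' : List ℕ) (m : ℕ)
  (μ α1 γ1 : List ℕ) (d dm : ℕ), 1 ≤ N → (P' ++ Q').Perm (List.range (k + 3)) → d ≤ 1 →
    dm ≤ 1 → Fr N f P' Q' m μ α1 γ1 →
      lgt μ = (List.range (k + 2)).map (fun i => 3 * (dm + i) + 1) →
        (∀ i, d ≤ i → i ≤ k + 1 + d → 3 * i + 1 ∈ im N f μ) →
          ∃ ζ : ℕ → ℕ, (∀ i < k + 2, f (3 * (dm + i) + 1) = [3 * ζ i + 1] ∧
            (ζ i ∈ Q' ↔ dm + i ∈ Q') ∧ d ≤ ζ i ∧ ζ i ≤ k + 1 + d) ∧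
            lgt (im N f μ) = (List.range (k + 2)).map (fun i => 3 * ζ i + 1) ∧
            (∀ j, d ≤ j → j ≤ k + 1 + d → ∃ i < k + 2, ζ i = j) ∧
            (∀ i < k + 2, ∀ j < k + 2, ζ i = ζ j → i = j)

/-- IBM. The instance of the inner part changes by insertion of copies of the instance of `m^N`.
PROOF. Induction on `k`; `Ib w` is reflexive and compatible with `++`; `im` is a flatMap. -/
def IbmStmt : Prop := ∀ (N : ℕ) (f : ℕ → List ℕ) (g : ℕ → Bool) (m k d : ℕ)
  (s1 s2 a b : List ℕ),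
    Ib (im N f (X N m)) (im N f (a ++ (cr g (s1 ++ s2) d k ++ b)))
      (im N f (a ++ (cr g (s1 ++ (X N m ++ s2)) d k ++ b)))

/-- SIG. The case of the moved letter `y` and the watched letter `x`.
PROOF (uses PPM LBK DCB ORD MKP CV2).  `lgt μ` = the lights `1, …, k + 2`.  CV2 with `d = 0`, `dm = 1`:
`f (a_(i+1)) = [a_(ζ i)]`, `i ≤ k + 1`, `ζ` onto `0, …, k + 1`, `ζ i` has the kind of `i + 1`.
(1) Counting the indices in `PP k Q`: `#{0..k+1} = #{1..k+2}`, so `0` and `k + 2` have the same kind,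
call it `κ`; by PPM also `1` and `k + 1` have the kind `κ`.
(2) Suppose some light has another kind; let `j` be the smallest index, `2 ≤ j ≤ k`.  `ζ (j-1)` has the
kind of `j`, so not `κ`, so `ζ (j-1) ≥ j`.  By ORD (different kinds) the lights `a_0, …, a_(j-1)` are
before `a_(ζ (j-1))` in the main block; they are in `im μ` (hypothesis), where the order of the lights is
`ζ 0, ζ 1, …`; so they are among `ζ 0, …, ζ (j-2)`: `j` values, `j - 1` places, contradiction.
(3) All lights have the kind `κ`: all pairs are ordered (ORD), so `ζ i = i` (`ζ` is increasing and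
onto).  `ll` holds for no light (`Fct.nl` and PPM), `rr` for no light.  `Full N S P Q k j` is false for
all `j` (it contains `ll N S Q 0`), so `g j = true` for `1 ≤ j ≤ k`.  The marker `c = c_k = 3 k + 3` is in
the main block (content, DCB, LBK).  `μ = (cr g s 1 (k-1) ++ mk g k ++ s) ++ [a_(k+1)] ++ X ++
[a_(k+2)]`, so `im μ = … a_k (im X) a_(k+1)` (`f (a_(k+1)) = [a_k]`, `f (a_(k+2)) = [a_(k+1)]`).  By MKP
with `i = k ≤ j = k`: `c` is not before `a_k`; with `i = k + 1`: `c` is not behind `a_(k+1)`; so `c` is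
in `im N f (X N 0)`, i.e. in `f 0`; by hypothesis `c ∈ α1`, which is before `a_k`: contradiction. -/
def SigStmt : Prop := ∀ (N : ℕ) (S : List ℕ → List ℕ → Prop) (P Q : List ℕ) (g : ℕ → Bool)
  (k : ℕ) (f : ℕ → List ℕ) (s α1 γ1 : List ℕ), Hyp N S P Q g k → (∀ a ∈ s, a % 3 = 0) →
    Fr N f (PP k P) (PP k Q) 3 (cr g s 1 k ++ (X N 0 ++ [3 * (k + 2) + 1])) α1 γ1 →
      S (Wb N P Q g k 0) (W (PP k P) (PP k Q) (α1 ++ (im N f (X N 3) ++
        (im N f (cr g s 1 k ++ (X N 0 ++ [3 * (k + 2) + 1])) ++ (im N f (X N 3) ++ γ1))))) →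
        (∀ a ∈ f 0, a % 3 = 0 → a ∈ α1) →
          (∀ i ≤ k + 1, 3 * i + 1 ∈ im N f (cr g s 1 k ++ (X N 0 ++ [3 * (k + 2) + 1]))) → False

/-- TAU. The case of the moved letter `x` and the watched letter `y` (mirror image of SIG).
PROOF (uses PPM LBK DCB ORD MKP CV2).  `lgt μ` = the lights `0, …, k + 1`.  CV2 with `d = 1`, `dm = 0`:
`f (a_i) = [a_(ζ i)]`, `i ≤ k + 1`, `ζ` onto `1, …, k + 2`, kinds of `ζ i` and `i` equal.  (1) `0` and
`k + 2` have the same kind `κ`.  (2) Suppose some light has another kind; let `j` be the largest such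
index, `2 ≤ j ≤ k`.  `ζ j` has the kind of `j`, so `ζ j ≤ j`, and `a_(j+1), …, a_(k+2)` are behind
`a_(ζ j)` (ORD); they are among `ζ (j+1), …, ζ (k+1)`: `k + 2 - j` values, `k + 1 - j` places.  (3) All
of one kind: `ζ i = i + 1`, all gaps have markers; `c = c_1 = 6`; `im μ = a_1 (im Y) a_2 …`
(`f (a_0) = [a_1]`, `f (a_1) = [a_2]`); by MKP `c` is behind `a_1` (`i = 1 ≤ j = 1`) and before `a_2`
(`i = 2`), so in `f 3`, so by hypothesis in `γ1`, which is behind `a_2`: contradiction. -/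
def TauStmt : Prop := ∀ (N : ℕ) (S : List ℕ → List ℕ → Prop) (P Q : List ℕ) (g : ℕ → Bool)
  (k : ℕ) (f : ℕ → List ℕ) (s α1 γ1 : List ℕ), Hyp N S P Q g k → (∀ a ∈ s, a % 3 = 0) →
    Fr N f (PP k P) (PP k Q) 0 (1 :: (X N 3 ++ cr g s 1 k)) α1 γ1 →
      S (Wb N P Q g k 1) (W (PP k P) (PP k Q) (α1 ++ (im N f (X N 0) ++
        (im N f (1 :: (X N 3 ++ cr g s 1 k)) ++ (im N f (X N 0) ++ γ1))))) →
        (∀ a ∈ f 3, a % 3 = 0 → a ∈ γ1) →
          (∀ i, 1 ≤ i → i ≤ k + 2 → 3 * i + 1 ∈ im N f (1 :: (X N 3 ++ cr g s 1 k))) → False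

/-- RH1. Moved letter `x`, watched letter `x`: identity match at the ends.
PROOF (uses PPM DCB ORD CV2).  CV2 with `d = dm = 0`: `f (a_i) = [a_(ζ i)]`, `ζ` a permutation of
`0, …, k + 1`.  `0 = ζ i`; if `i > 0` then `ζ 0 > 0` and by ORD (`0` has the kind of an end) `a_0` is
before `a_(ζ 0)`, but in the list of the lights of `im μ` (CV2) `ζ 0` is before `ζ i`: contradiction; so
`ζ 0 = 0`.  In the same way `ζ 1 = 1` (`1` has the kind of `0`; pair `(1, ζ 1)`, `ζ 1 ≥ 2`) and
`ζ (k+1) = k + 1` (pair `(ζ (k+1), k + 1)`, `k + 1` has the kind of `k + 2`). -/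
def Rh1Stmt : Prop := ∀ (N : ℕ) (S : List ℕ → List ℕ → Prop) (P Q : List ℕ) (g : ℕ → Bool)
  (k : ℕ) (f : ℕ → List ℕ) (s α1 γ1 : List ℕ), Hyp N S P Q g k → (∀ a ∈ s, a % 3 = 0) →
    Fr N f (PP k P) (PP k Q) 0 (1 :: (X N 3 ++ cr g s 1 k)) α1 γ1 →
      S (Wb N P Q g k 0) (W (PP k P) (PP k Q) (α1 ++ (im N f (X N 0) ++
        (im N f (1 :: (X N 3 ++ cr g s 1 k)) ++ (im N f (X N 0) ++ γ1))))) →
        (∀ i ≤ k + 1, 3 * i + 1 ∈ im N f (1 :: (X N 3 ++ cr g s 1 k))) →
          f 1 = [1] ∧ f 4 = [4] ∧ f (3 * (k + 1) + 1) = [3 * (k + 1) + 1]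

/-- RH2. The identity match is impossible if the inner gaps contain `y`.
PROOF (uses PPM DCB NOB ORD YIN).  The word is `W'[L1]` (DCB).  The light `a_0` (letter `1`) occurs
exactly twice in the word, these are the letters `1` in the two copies of `f 1` (one comes from the
letter `1` of the main block, one from its place).  So the one in the instance of the main block `Lp` is
the one in `L1`; the same for `a_1` (letter `4`, `f 4`) and `a_(k+1)`.  Since the other copies stand in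
`pl (PP k P)` or `pr (PP k Q)`, where the lights are isolated by separators and no heavy letters occur,
`f 1 = [1]`, `f 4 = [4]`, `f (a_(k+1)) = [a_(k+1)]`.  `Lp = X a_0 Y a_1 …`, so between `a_0` and `a_1` the
word `L1` is `im N f (X N 3)`.  By YIN there is a `y` in it (every light occurs once in `L1`), so
`3 ∈ f 3`.  `cr g s 1 k = a_1 M_1 s a_2 …` and `3 ∈ s`: the instance of this letter contains `y` and
stands behind `a_1` and before `a_(k+1)` (`k ≥ 1`), which is before `a_(k+2)` (ORD, kind of `k + 2`):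
contradiction to NOB with `d = 1` (`a_1` on the left, `a_(k+2)` on the right). -/
def Rh2Stmt : Prop := ∀ (N : ℕ) (S : List ℕ → List ℕ → Prop) (P Q : List ℕ) (g : ℕ → Bool)
  (k : ℕ) (f : ℕ → List ℕ) (p q s : List ℕ), Hyp N S P Q g k → (∀ a ∈ s, a % 3 = 0) → 3 ∈ s →
    (∃ a b, f 1 = X a 3 ++ 1 :: X b 3) → (∃ a b, f 4 = X a 3 ++ 4 :: X b 3) →
      (∃ a b, f (3 * (k + 1) + 1) = X a 3 ++ (3 * (k + 1) + 1) :: X b 3) →
        S (Wb N P Q g k 1) (p ++ (im N f (W (PP k P) (PP k Q) (Lp N g s k)) ++ q)) → False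

/-- STS. The steps with moved letter `y` do not change the class of the word with `L_x`.
PROOF (uses PPM LBK DCB FRM MRK COV SIG GTR GST CLN IBM).  If `f 3 = []` then `V1 = V2` (the images
of the letters `3` are empty; IBM with `w = []`).  Otherwise let `V` be `V1` or `V2`, the one which is
`~ Wb … 0`; `V = W'[L1]` (DCB), FRM with `m = 3`, `α = X N 0 ++ [1]`, `μ = cr g s' 1 k ++ (X N 0 ++
[3 (k+2) + 1])` (`s' = s` or `s ++ Y`), `γ = []`.  So `L1 = α1 w0 (im μ) w0 γ1` with `w0 = im N f (X N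
3)`, all letters of `w0` (= letters of `f 3`) heavy, hence `0` or markers of gaps with `g = true` (content,
LBK).  Claim: `Gd N S k (pl P' ++ 2 :: α1) (γ1 ++ 5 :: pr Q') h (im μ)` for every `h ∈ f 3`.  `h` a
marker: write `w0 = x1 h x2`, `L1 = (α1 x1) h (x2 (im μ) x1) h (x2 γ1)`, MRK and GTR.  `h = 0`: if
`(lgt (im μ)).length ≤ k`: case 1 of `Gd` (`Ok`: no repetitions; every light is in `pl P'` or `pr Q'`).
Otherwise COV (`d = 0`) with the two letters `0` of the two `w0`: all `a_i`, `i ≤ k + 1`, are in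
`x2 (im μ) x1`, so in `im μ` (lights): SIG (`∀ a ∈ f 0` heavy `→ a ∈ α1` from FRM, `f 0` is in
`im N f (X N 0)` as `N ≥ 1`): contradiction.  The other word is obtained by insertion (or deletion) of
copies of `w0` in `im μ` (IBM); GST transfers `Gd` to the word without the copies; CLN with
`w = w0` (all counts are divisible by `N`: `w0 = (f 3)^(N (N+1))`). -/
def StsStmt : Prop := ∀ (N : ℕ) (S : List ℕ → List ℕ → Prop) (P Q : List ℕ) (g : ℕ → Bool)
  (k : ℕ) (f : ℕ → List ℕ) (p q s : List ℕ), Hyp N S P Q g k → (s = [] ∨ s = X N 0) →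
    (S (Wb N P Q g k 0) (p ++ (im N f (W (PP k P) (PP k Q) (Lp N g s k)) ++ q)) ∨
      S (Wb N P Q g k 0) (p ++ (im N f (W (PP k P) (PP k Q) (Lp N g (s ++ X N 3) k)) ++ q))) →
      S (p ++ (im N f (W (PP k P) (PP k Q) (Lp N g s k)) ++ q))
        (p ++ (im N f (W (PP k P) (PP k Q) (Lp N g (s ++ X N 3) k)) ++ q))

/-- STT. The steps with moved letter `x` do not change the class of the word with `L_y`.
PROOF (uses PPM LBK DCB FRM MRK COV TAU GTR GST CLN IBM).  As STS with `m = 0`, `α = []`,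
`μ = 1 :: (X N 3 ++ cr g s' 1 k)`, `γ = (3 (k+2) + 1) :: X N 3`, `d = 1`, TAU instead of SIG
(`f 3` is in `im γ`). -/
def SttStmt : Prop := ∀ (N : ℕ) (S : List ℕ → List ℕ → Prop) (P Q : List ℕ) (g : ℕ → Bool)
  (k : ℕ) (f : ℕ → List ℕ) (p q s : List ℕ), Hyp N S P Q g k → (s = [] ∨ s = X N 3) →
    (S (Wb N P Q g k 1) (p ++ (im N f (W (PP k P) (PP k Q) (Lp N g s k)) ++ q)) ∨
      S (Wb N P Q g k 1) (p ++ (im N f (W (PP k P) (PP k Q) (Lp N g (X N 0 ++ s) k)) ++ q))) →
      S (p ++ (im N f (W (PP k P) (PP k Q) (Lp N g s k)) ++ q))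
        (p ++ (im N f (W (PP k P) (PP k Q) (Lp N g (X N 0 ++ s) k)) ++ q))

/-- STR. The step `(w_y, w_xy)` (moved letter `x`) on the intersection of the two classes.
PROOF (uses PPM LBK DCB FRM MRK COV RH1 RH2 GTR GST CLN IBM).  Let `V` be the word which satisfies the
hypothesis, `f1 a = (f a).filter (≠ 3)`, `f0 a = (f a).filter (≠ 0)`, `p1, q1, p0, q0` in the same way;
`(im N f L).filter (≠ 3) = im N f1 L`.  Proceed as in STT for `f1`, with `d = 0`: for
`h ∈ f1 0`: markers by MRK; `h = 0`: case 1 of `Gd`, or COV (`d = 0`) gives all `a_i`, `i ≤ k + 1`,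
in `im N f1 μ`, and RH1 for `f1`: `f1 1 = [1]`, `f1 4 = [4]`, `f1 (a_(k+1)) = [a_(k+1)]`.  So `f 1` has
only letters `3` besides one `1`, hence `f 1 = X a 3 ++ 1 :: X b 3`, and `f0 1` is the same word; the
same for the other two; RH2 for `f0`, `p0`, `q0`, `s` (`= Y` or `X Y`, contains `3`): contradiction. -/
def StrStmt : Prop := ∀ (N : ℕ) (S : List ℕ → List ℕ → Prop) (P Q : List ℕ) (g : ℕ → Bool)
  (k : ℕ) (f : ℕ → List ℕ) (p q V1 V2 : List ℕ), Hyp N S P Q g k →
    V1 = p ++ (im N f (W (PP k P) (PP k Q) (Lp N g (X N 3) k)) ++ q) →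
    V2 = p ++ (im N f (W (PP k P) (PP k Q) (Lp N g (X N 0 ++ X N 3) k)) ++ q) →
    ((S (Wb N P Q g k 0) (V1.filter (fun a => decide (a ≠ 3))) ∧
        S (Wb N P Q g k 1) (V1.filter (fun a => decide (a ≠ 0)))) ∨
      (S (Wb N P Q g k 0) (V2.filter (fun a => decide (a ≠ 3))) ∧
        S (Wb N P Q g k 1) (V2.filter (fun a => decide (a ≠ 0))))) →
      S (V1.filter (fun a => decide (a ≠ 3))) (V2.filter (fun a => decide (a ≠ 3)))

/-! ## Block G: the pentagon and the end -/

/-- PEN. The pentagon.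
PROOF (uses PPM PJM SBW LBF STS STT STR).  `S = SS N β`.  For `s` in `{[], X, Y, XY}` put
`w s = dd N (W' [Lp N g s k])` (`W'` = places `PP k P`, `PP k Q`).  `(w s).flatMap f = im N f (W'[Lp …])`.
`Ks V := S (Wb … 0) (V.filter (≠ 3))`, `Kt V := S (Wb … 1) (V.filter (≠ 0))`, `K V := Ks V ∧ Kt V`.
`σ = gaml Ks`, `τ = gaml Kt`, `ρ = FIC.inf (gaml K) (gaml Kt)` (MWF.Defs).  `β ≤ σ, τ, gaml K` by
`le_gaml` (hypothesis `RR β u v → S u v`, after `RR.filter`).  `RR σ (w []) (w Y)` and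
`RR σ (w X) (w XY)`: `RR_gaml` and STS (with `f1 a = (f a).filter (≠ 3)` and filtered contexts; STS
gives `S V1 V2` as soon as one side is in `Ks`, so `Ks` on both sides is equivalent).
`RR τ (w []) (w X)`, `RR τ (w Y) (w XY)`: STT with `f0`.  `RR (gaml K) (w Y) (w XY)`: STR for the part
`Ks` and STT for the part `Kt`.  So `RR ρ (w Y) (w XY)`, `ρ ≤ τ` (`FIC.inf_le_right`).
`(w [], w X)` is in `sup ρ σ` (`w [] σ w Y ρ w XY σ w X`) and in `τ`.  `MWF.pent` with `P = K`:
`h1`, `h2` by `gaml_keep`.  `K (w [])`: `(w []).filter (≠ 3) = dd N (Wb … 0)` and `S u (dd N u)`; in the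
same way for `Kt`.  So `K (w X)`, hence `S (Wb … 0) (dd N (W'[(Lp N g X k).filter (≠ 3)]))`, so (by
`S u (dd N u)`, `symm`, `trans`) `S (Wb … 0) (W'[X a_0 (cr g X 1 k) X a_(k+2)])`; apply
`fj (j1 k) (hd 0 [0])`: `Run N S P Q g k`, contradiction. -/
def PenStmt : Prop := ∀ (N : ℕ) (β : FIC), ModF β → (∀ u v, RR β u v → SS N β u v) →
  (∀ u, SS N β u (dd N u)) → ∀ (P Q : List ℕ) (g : ℕ → Bool) (k : ℕ),
    Hyp N (SS N β) P Q g k → False

/-- TOP. Free insertion.
PROOF (uses FR1 FRS FCA FCB UNQ REM PEN).  Induction on `k`; `k = 0, 1`: FR1 (`Free N S 1` implies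
`Free N S 0`).  `k ≥ 1`, `Free N S k`: by FRS it is enough to show `Run` for all `P, Q` with all markers.
Suppose not.  FCA, FCB with `g = fun _ => true` (`Gone` is trivial) give `Fct N S Q k`.  If no `j`,
`1 ≤ j ≤ k`, has `Full N S P Q k j`: `g = fun _ => true` gives `Hyp`, PEN.  Otherwise `Full … j`:
`g = fun i => decide (i ≠ j)`; `¬ Run` by REM; `Gone g k` clear; `hg` by UNQ; PEN. -/
def TopStmt : Prop := ∀ (N : ℕ) (β : FIC), ModF β → Wo N (SS N β) →
  (∀ u v, RR β u v → SS N β u v) → (∀ u, SS N β u (dd N u)) → ∀ k, Free N (SS N β) k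

/-- the power `n + 1` for all letters with `H` -/
def dh (n : ℕ) (H : ℕ → Bool) (L : List ℕ) : List ℕ :=
  L.flatMap (fun a => if H a then X (n + 1) a else [a])

/-- FIL. Free insertion for an arbitrary set of heavy letters.
PROOF (uses WOB TOP).  Rename the letters: `enc a = 3 a` if `H a`, `3 a + 1` otherwise, `dec b = b / 3`.
`dd n (u.map enc) = (dh n H u).map enc`.  Apply TOP to the renamed words (`k` = number of letters without
`H`) and rename back by `RR.sub (fun b => [b / 3])`. -/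
def FilStmt : Prop := ∀ (β : FIC) (n : ℕ), 1 ≤ n → ModF β → Iso3 β →
  RR β (X 2 0) (X (n + 2) 0) →
    RR β (X (n + 1) 0 ++ X (n + 1) 3) (X (n + 1) 3 ++ X (n + 1) 0) →
      ∀ (H : ℕ → Bool) (p q a b : List ℕ) (h : ℕ), H h = true →
        ((a ++ b).filter (fun c => !H c)).Nodup →
          (∀ c ∈ a ++ b, H c = false → c ∈ p ∨ c ∈ q) →
            RR β (dh n H (p ++ h :: (a ++ (b ++ h :: q))))
              (dh n H (p ++ h :: (a ++ (X n h ++ (b ++ h :: q)))))

end Pool.Agent.MWV
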