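import Pool.Agent.MWF.Defs

/-!
# World A, run fill with heavy ends (squad MWV, problem MP_23468a_al): definitions

`RR β l l'` : the identity `l ≈ l'` (lists of natural numbers) belongs to the fully invariant
congruence `β`.  Letters: `a % 3 = 0` heavy letters (`0` = `x`, `3` = `y`, `3 j + 3` = the marker
`c_j`, `j ≥ 1`), `3 e + 1` = the light `z_e` (in the large words also written `a_e`),
`2`, `5`, `3 e + 8` = separators.

`S` is a relation on words which satisfies `Wo N S` (`N ≥ 1` is the period); in the end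
`S u v := RR β (dd N u) (dd N v)` where `dd N` raises every heavy letter to the power `N + 1`.  For `S`
the heavy letters commute and `h ^ (N + 1) = h`; so `X = x ^ N` is idempotent.  We write `u ~ v` for
`S u v`.
-/

namespace Pool.Agent.MWV

open Pool.Agent.Helper14_MV Pool.Agent.Helper2_MV

/-- `h ^ N` -/
abbrev X (N h : ℕ) : List ℕ := List.replicate N h

/-- The calculus: a congruence which is closed under all substitutions which map heavy letters to
words of heavy letters; heavy letters commute and have period `N`; `z t z` is an isoterm. -/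
structure Wo (N : ℕ) (S : List ℕ → List ℕ → Prop) : Prop where
  pos : 1 ≤ N
  refl : ∀ u, S u u
  symm : ∀ {u v}, S u v → S v u
  trans : ∀ {u v w}, S u v → S v w → S u w
  app : ∀ {u v u' v'}, S u v → S u' v' → S (u ++ u') (v ++ v')
  sub : ∀ (f : ℕ → List ℕ) {u v}, (∀ h, h % 3 = 0 → ∀ a ∈ f h, a % 3 = 0) → S u v →
    S (u.flatMap f) (v.flatMap f)
  pw : S (X (N + 1) 0) [0]
  comm : S [0, 3] [3, 0]
  iso : ∀ v, S [1, 2, 1] v → v = [1, 2, 1]

/-- the letters of a word which are not heavy -/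
def lgt (L : List ℕ) : List ℕ := L.filter (fun a => decide (a % 3 ≠ 0))

/-- every heavy letter is raised to the power `N + 1` -/
def dd (N : ℕ) (L : List ℕ) : List ℕ := L.flatMap (fun a => if a % 3 = 0 then X (N + 1) a else [a])

/-- the relation of a congruence -/
def SS (N : ℕ) (β : FIC) (u v : List ℕ) : Prop := RR β (dd N u) (dd N v)

/-! ### words with one main block -/

/-- the places left of the main block: `s_e z_e` for `e` in `P` -/
def pl (P : List ℕ) : List ℕ := P.flatMap (fun e => [3 * e + 8, 3 * e + 1])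
/-- the places right of the main block: `z_e s_e` for `e` in `Q` -/
def pr (Q : List ℕ) : List ℕ := Q.flatMap (fun e => [3 * e + 1, 3 * e + 8])
/-- the word with the main block `L` -/
def W (P Q L : List ℕ) : List ℕ := pl P ++ 2 :: (L ++ 5 :: pr Q)

/-- admissible main blocks: heavy letters and the lights of `P ++ Q`, every light exactly once -/
structure Ok (P Q L : List ℕ) : Prop where
  mem : ∀ a ∈ L, a % 3 = 0 ∨ ∃ e ∈ P ++ Q, a = 3 * e + 1
  one : ∀ e ∈ P ++ Q, L.count (3 * e + 1) = 1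

/-- the substitution which renames (or deletes) the lights together with their separators by `jj` and
maps the heavy letters by `hh` -/
def fj (jj : ℕ → Option ℕ) (hh : ℕ → List ℕ) (a : ℕ) : List ℕ :=
  if a % 3 = 0 then hh a
  else if a % 3 = 1 then (jj (a / 3)).elim [] (fun i => [3 * i + 1])
  else if a < 8 then [a] else (jj ((a - 8) / 3)).elim [] (fun i => [3 * i + 8])

/-! ### runs -/

/-- the marker of gap `j` -/
def mk (g : ℕ → Bool) (j : ℕ) : List ℕ := if g j then [3 * j + 3] else []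

/-- `z_d M_1 s z_(d+1) M_2 s … M_k s z_(d+k)` -/
def cr (g : ℕ → Bool) (s : List ℕ) (d : ℕ) : ℕ → List ℕ
  | 0 => [3 * d + 1]
  | k + 1 => cr g s d k ++ (mk g (k + 1) ++ (s ++ [3 * (d + (k + 1)) + 1]))

/-- the fill bit: `X z_0 M_1 z_1 … z_k X ~ X z_0 M_1 X z_1 … M_k X z_k X` -/
def Run (N : ℕ) (S : List ℕ → List ℕ → Prop) (P Q : List ℕ) (g : ℕ → Bool) (k : ℕ) : Prop :=
  S (W P Q (X N 0 ++ (cr g [] 0 k ++ X N 0))) (W P Q (X N 0 ++ (cr g (X N 0) 0 k ++ X N 0)))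

/-- at most one gap has no marker -/
def Gone (g : ℕ → Bool) (k : ℕ) : Prop := ∀ i j, 1 ≤ i → i ≤ k → 1 ≤ j → j ≤ k →
  g i = false → g j = false → i = j

/-- `h ^ N` may be inserted between two letters `h` with at most `k` different lights between them -/
def Free (N : ℕ) (S : List ℕ → List ℕ → Prop) (k : ℕ) : Prop := ∀ (p q a b : List ℕ) (h : ℕ),
  h % 3 = 0 → (lgt (a ++ b)).length ≤ k → (lgt (a ++ b)).Nodup →
    (∀ c ∈ a ++ b, c % 3 ≠ 0 → c ∈ p ∨ c ∈ q) →
      S (p ++ h :: (a ++ (b ++ h :: q))) (p ++ h :: (a ++ (X N h ++ (b ++ h :: q))))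

section
variable (N : ℕ) (S : List ℕ → List ℕ → Prop)

/-- `X z t z ~ X z X t z` -/
def ra : Prop := S (X N 0 ++ [1, 2, 1]) (X N 0 ++ 1 :: (X N 0 ++ [2, 1]))
/-- `z X t z ~ X z X t z` -/
def la : Prop := S (1 :: (X N 0 ++ [2, 1])) (X N 0 ++ 1 :: (X N 0 ++ [2, 1]))
/-- `z t X z ~ z t X z X` -/
def rb : Prop := S (1 :: 2 :: (X N 0 ++ [1])) (1 :: 2 :: (X N 0 ++ 1 :: X N 0))
/-- `z t z X ~ z t X z X` -/
def lb : Prop := S (1 :: 2 :: 1 :: X N 0) (1 :: 2 :: (X N 0 ++ 1 :: X N 0))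

/-- `X z ~ X z X` for the kind of the light `i` (`i ∈ Q`: other occurrence right of the block) -/
def rr (Q : List ℕ) (i : ℕ) : Prop := (i ∈ Q → ra N S) ∧ (i ∉ Q → rb N S)
/-- `z X ~ X z X` for the kind of the light `i` -/
def ll (Q : List ℕ) (i : ℕ) : Prop := (i ∈ Q → la N S) ∧ (i ∉ Q → lb N S)

/-- the letters of `ν` allow `X z ~ X z X` (left context `p`, right context `q`) -/
def Rp (p q ν : List ℕ) : Prop := ∀ c ∈ ν, c % 3 ≠ 0 → (c ∈ q ∧ ra N S) ∨ (c ∈ p ∧ rb N S)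
/-- the letters of `ν` allow `z X ~ X z X` -/
def Lq (p q ν : List ℕ) : Prop := ∀ c ∈ ν, c % 3 ≠ 0 → (c ∈ q ∧ la N S) ∨ (c ∈ p ∧ lb N S)

/-- `h ^ N` may be inserted everywhere in `ν` if `h` stands on both sides of `ν` -/
def Gd (k : ℕ) (p q : List ℕ) (h : ℕ) (ν : List ℕ) : Prop :=
  ((lgt ν).length ≤ k ∧ (lgt ν).Nodup ∧ ∀ c ∈ ν, c % 3 ≠ 0 → c ∈ p ∨ c ∈ q) ∨
  Rp N S p q ν ∨ Lq N S p q ν ∨
  ∃ (ν1 ρ ν2 : List ℕ) (z z' : ℕ), ν = ν1 ++ z :: (ρ ++ z' :: ν2) ∧ z % 3 ≠ 0 ∧ z' % 3 ≠ 0 ∧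
    (∀ c ∈ ρ, c % 3 = 0) ∧ ρ.count h % N ≠ 0 ∧ Lq N S p q (ν1 ++ [z]) ∧ Rp N S p q (z' :: ν2)

end

/-- two lights with the other occurrences right of the block commute -/
def SA (S : List ℕ → List ℕ → Prop) : Prop := S [1, 4, 2, 1, 5, 4] [4, 1, 2, 1, 5, 4]
/-- two lights, one with the other occurrence left and one right of the block, commute -/
def SM (S : List ℕ → List ℕ → Prop) : Prop := S [1, 2, 1, 4, 5, 4] [1, 2, 4, 1, 5, 4]
/-- two lights with the other occurrences left of the block commute -/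
def SB (S : List ℕ → List ℕ → Prop) : Prop := S [1, 2, 4, 5, 1, 4] [1, 2, 4, 5, 4, 1]

/-- consequences of `¬ Run` -/
structure Fct (N : ℕ) (S : List ℕ → List ℕ → Prop) (Q : List ℕ) (k : ℕ) : Prop where
  nr : ¬ rr N S Q 0
  nl : ¬ ll N S Q k
  sr : ¬ S (X N 0 ++ [2]) (X N 0 ++ 2 :: X N 0)
  sl : ¬ S (2 :: X N 0) (X N 0 ++ 2 :: X N 0)
  na : 0 ∈ Q ∨ k ∈ Q → ¬ SA S
  nm : ¬ SM S
  nb : 0 ∉ Q ∨ k ∉ Q → ¬ SB S

/-- the marker of gap `j` can leave its gap -/
def Jp (N : ℕ) (S : List ℕ → List ℕ → Prop) (P Q : List ℕ) (j : ℕ) : Prop :=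
  ∃ α β γ : ℕ, 1 ≤ α ∧ 1 ≤ γ ∧ β % N = 0 ∧
    S (W (P.filter (fun e => decide (e + 1 = j ∨ e = j)))
        (Q.filter (fun e => decide (e + 1 = j ∨ e = j))) [3 * (j - 1) + 1, 3 * j + 3, 3 * j + 1])
      (W (P.filter (fun e => decide (e + 1 = j ∨ e = j)))
        (Q.filter (fun e => decide (e + 1 = j ∨ e = j)))
        (X α (3 * j + 3) ++ (3 * (j - 1) + 1) ::
          (X β (3 * j + 3) ++ (3 * j + 1) :: X γ (3 * j + 3))))

/-- the marker of gap `j` spreads to all gaps and can leave its gap -/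
def Full (N : ℕ) (S : List ℕ → List ℕ → Prop) (P Q : List ℕ) (k j : ℕ) : Prop :=
  (∀ i < j, ll N S Q i) ∧ (∀ i, j ≤ i → i ≤ k → rr N S Q i) ∧ Jp N S P Q j

/-! ### the words of the pentagon

The lights are `a_0, …, a_(k+2)`; `a_1, …, a_(k+1)` is the run, `a_0` is the twin of `a_1` and
`a_(k+2)` is the twin of `a_(k+1)`. -/

/-- the run light `i` becomes `a_(i+1)`, with its twin -/
def tw (k i : ℕ) : List ℕ :=
  (if i = 0 then [0, 1] else [i + 1]) ++ (if i = k then [k + 2] else [])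
/-- the places of the large word -/
def PP (k : ℕ) (P : List ℕ) : List ℕ := P.flatMap (tw k)

/-- `X a_0 Y a_1 (M_1 s) a_2 … (M_k s) a_(k+1) X a_(k+2) Y`, `X = x^N`, `Y = y^N`; `s` is one of
`[]`, `X`, `Y`, `X Y` -/
def Lp (N : ℕ) (g : ℕ → Bool) (s : List ℕ) (k : ℕ) : List ℕ :=
  X N 0 ++ 1 :: (X N 3 ++ (cr g s 1 k ++ (X N 0 ++ (3 * (k + 2) + 1) :: X N 3)))

/-- `d = 0`: `L_x = X a_0 a_1 M_1 a_2 … a_(k+1) X a_(k+2)` (watched letter `x = 0`);
`d = 1`: `L_y = a_0 Y a_1 M_1 a_2 … a_(k+1) a_(k+2) Y` (watched letter `y = 3`) -/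
def Lb (N : ℕ) (g : ℕ → Bool) (k d : ℕ) : List ℕ :=
  (Lp N g [] k).filter (fun a => decide (a ≠ 3 * (1 - d)))

/-- the words with the main blocks `L_x`, `L_y` -/
def Wb (N : ℕ) (P Q : List ℕ) (g : ℕ → Bool) (k d : ℕ) : List ℕ :=
  W (PP k P) (PP k Q) (Lb N g k d)

/-- a failing run -/
structure Hyp (N : ℕ) (S : List ℕ → List ℕ → Prop) (P Q : List ℕ) (g : ℕ → Bool) (k : ℕ) :
    Prop where
  wo : Wo N S
  kp : 1 ≤ k
  fr : Free N S k
  pm : (P ++ Q).Perm (List.range (k + 1))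
  one : Gone g k
  fc : Fct N S Q k
  hg : ∀ j, 1 ≤ j → j ≤ k → (g j = true ↔ ¬ Full N S P Q k j)
  nrun : ¬ Run N S P Q g k

/-- delete `a_0` and `a_(k+2)`, rename `a_(i+1)` to `z_i` -/
def j1 (k i : ℕ) : Option ℕ := if i = 0 ∨ i = k + 2 then none else some (i - 1)
/-- delete `a_1` and `a_(k+2)`, rename `a_0` to `z_0` and `a_(i+1)` to `z_i` -/
def j2 (k i : ℕ) : Option ℕ := if i = 1 ∨ i = k + 2 then none else some (i - 1)
/-- delete `a_0` and `a_(k+1)`, rename `a_(k+2)` to `z_k` and `a_(i+1)` to `z_i` -/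
def j3 (k i : ℕ) : Option ℕ :=
  if i = 0 ∨ i = k + 1 then none else if i = k + 2 then some k else some (i - 1)
/-- the watched letter becomes `v`, the other heavy letters stay -/
def hd (d : ℕ) (v : List ℕ) (a : ℕ) : List ℕ := if a = 3 * d then v else [a]

/-! ### substitution instances -/

/-- the value of `dd N L` under a substitution -/
def im (N : ℕ) (f : ℕ → List ℕ) (L : List ℕ) : List ℕ :=
  L.flatMap (fun a => if a % 3 = 0 then (List.replicate (N + 1) (f a)).flatten else f a)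

/-- `v` is obtained from `u` by insertion of copies of `w` -/
inductive Ib (w : List ℕ) : List ℕ → List ℕ → Prop
  | nil : Ib w [] []
  | cons (a : ℕ) {u v : List ℕ} : Ib w u v → Ib w (a :: u) (a :: v)
  | ins {u v : List ℕ} : Ib w u v → Ib w u (w ++ v)

/-- position of an instance of the part of the main block between the two end groups of the moved
letter `m` inside a word `W P' Q' …` -/
structure Fr (N : ℕ) (f : ℕ → List ℕ) (P' Q' : List ℕ) (m : ℕ) (μ α1 γ1 : List ℕ) : Prop where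
  ok : Ok P' Q' (α1 ++ (im N f (X N m) ++ (im N f μ ++ (im N f (X N m) ++ γ1))))
  hf : ∀ a ∈ f m, a % 3 = 0
  lp : ∀ i ∈ P', 3 * i + 1 ∈ μ → ∃ x1 x2, pl P' ++ 2 :: α1 = x1 ++ (f (3 * i + 1) ++ x2)
  rp : ∀ i ∈ Q', 3 * i + 1 ∈ μ → ∃ y1 y2, γ1 ++ 5 :: pr Q' = y1 ++ (f (3 * i + 1) ++ y2)

end Pool.Agent.MWV
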